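import Mathlib

/-!
# Stable local structure does not imply strongly stable local structure

A four element crown poset carries a module all of whose structure maps are isomorphisms,
with holonomy a diagonal automorphism of infinite order.  Its local structure is trivial
(hence stable), but relative to one line the local structure is infinite.
-/

open CategoryTheory

namespace Pool.Agent.Results.MP_0548d2_gt.StableNotStrong

universe u v w

/-- A multi-flag of `V`: a set of subspaces containing `{0}` and `V`, closed under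
intersection. -/
def IsMultiFlag {k : Type u} [Field k] {V : Type v} [AddCommGroup V] [Module k V]
    (S : Set (Submodule k V)) : Prop :=
  ⊥ ∈ S ∧ ⊤ ∈ S ∧ ∀ W ∈ S, ∀ W' ∈ S, W ⊓ W' ∈ S

/-- The multi-flag generated by a set of subspaces: the smallest multi-flag containing it. -/
def gen {k : Type u} [Field k] {V : Type v} [AddCommGroup V] [Module k V]
    (T : Set (Submodule k V)) : Set (Submodule k V) :=
  ⋂₀ {S | IsMultiFlag S ∧ T ⊆ S}

section defs

variable {k : Type u} [Field k] {C : Type w} [PartialOrder C]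

/-- The structure map `φ_{xy} : M(x) → M(y)` of a `C`-module for `x ≤ y`. -/
def phi (M : C ⥤ ModuleCat.{v} k) {x y : C} (h : x ≤ y) : M.obj x →ₗ[k] M.obj y :=
  (M.map (homOfLE h)).hom

/-- `F_0(M)(x)`: the multi-flag generated by the kernels of all `φ_{xy}`, `y ≥ x`, and the
images of all `φ_{zx}`, `z ≤ x`. -/
def base (M : C ⥤ ModuleCat.{v} k) (x : C) : Set (Submodule k (M.obj x)) :=
  gen ({W | ∃ (y : C) (h : x ≤ y), W = LinearMap.ker (phi M h)} ∪
    {W | ∃ (z : C) (h : z ≤ x), W = LinearMap.range (phi M h)})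

/-- The recursion step: the multi-flag generated by all `φ_{xy}⁻¹[W]` with `y ≥ x`, `W ∈ G(y)`,
together with all `φ_{zx}(W)` with `z ≤ x`, `W ∈ G(z)`. -/
def step (M : C ⥤ ModuleCat.{v} k) (G : ∀ x : C, Set (Submodule k (M.obj x))) (x : C) :
    Set (Submodule k (M.obj x)) :=
  gen ({W | ∃ (y : C) (h : x ≤ y) (U : Submodule k (M.obj y)), U ∈ G y ∧
      W = U.comap (phi M h)} ∪
    {W | ∃ (z : C) (h : z ≤ x) (U : Submodule k (M.obj z)), U ∈ G z ∧ W = U.map (phi M h)})

/-- `F_n(M)`. -/
def loc (M : C ⥤ ModuleCat.{v} k) : ℕ → ∀ x : C, Set (Submodule k (M.obj x))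
  | 0 => base M
  | n + 1 => step M (loc M n)

/-- `F^F_n(M)`: the same recursion started from the multi-flags generated by
`F_0(M)(x) ∪ F(x)`. -/
def relLoc (M : C ⥤ ModuleCat.{v} k) (F : ∀ x : C, Set (Submodule k (M.obj x))) :
    ℕ → ∀ x : C, Set (Submodule k (M.obj x))
  | 0 => fun x => gen (base M x ∪ F x)
  | n + 1 => step M (relLoc M F n)

/-- `M` has stable local structure. -/
def Stable (M : C ⥤ ModuleCat.{v} k) : Prop :=
  ∀ x : C, ∃ N : ℕ, ∀ n ≥ N, loc M n x = loc M (n + 1) x

/-- `M` has strongly stable local structure. -/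
def StronglyStable (M : C ⥤ ModuleCat.{v} k) : Prop :=
  ∀ F : ∀ x : C, Set (Submodule k (M.obj x)),
    (∀ x, IsMultiFlag (F x) ∧ (F x).Finite) →
      ∃ N : ℕ, ∀ x : C, (⋃ n : ℕ, relLoc M F n x) = relLoc M F N x

end defs

section gen

variable {k : Type u} [Field k] {V : Type v} [AddCommGroup V] [Module k V]

theorem subset_gen (T : Set (Submodule k V)) : T ⊆ gen T := by
  intro W hW S hS
  exact hS.2 hW

theorem isMultiFlag_gen (T : Set (Submodule k V)) : IsMultiFlag (gen T) := by
  refine ⟨?_, ?_, ?_⟩
  · intro S hS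
    exact hS.1.1
  · intro S hS
    exact hS.1.2.1
  · intro W hW W' hW' S hS
    exact hS.1.2.2 W (hW S hS) W' (hW' S hS)

theorem gen_subset {T S : Set (Submodule k V)} (hS : IsMultiFlag S) (h : T ⊆ S) :
    gen T ⊆ S := by
  intro W hW
  exact hW S ⟨hS, h⟩

theorem isMultiFlag_pair : IsMultiFlag ({⊥, ⊤} : Set (Submodule k V)) := by
  refine ⟨by simp, by simp, ?_⟩
  intro W hW W' hW'
  rcases hW with rfl | rfl
  · simp
  · rcases hW' with rfl | rfl
    · simp
    · simp

theorem isMultiFlag_triple (L : Submodule k V) :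
    IsMultiFlag ({⊥, ⊤, L} : Set (Submodule k V)) := by
  refine ⟨by simp, by simp, ?_⟩
  intro W hW W' hW'
  rcases hW with rfl | rfl | rfl
  · simp
  · rw [top_inf_eq]
    exact hW'
  · rcases hW' with rfl | rfl | rfl
    · simp
    · simp
    · simp

theorem gen_finite {T : Set (Submodule k V)} (hT : T.Finite) : (gen T).Finite := by
  have hfin : ({W | ∃ A ⊆ insert ⊥ T, W = sInf A} : Set (Submodule k V)).Finite := by
    have h1 : ((𝒫 (insert ⊥ T)) : Set (Set (Submodule k V))).Finite :=
      (hT.insert ⊥).finite_subsets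
    refine (h1.image sInf).subset ?_
    rintro W ⟨A, hA, rfl⟩
    exact ⟨A, hA, rfl⟩
  refine hfin.subset (gen_subset ?_ ?_)
  · refine ⟨⟨{⊥}, by simp, by simp⟩, ⟨∅, by simp, by simp⟩, ?_⟩
    rintro W ⟨A, hA, rfl⟩ W' ⟨B, hB, rfl⟩
    exact ⟨A ∪ B, Set.union_subset hA hB, by rw [sInf_union]⟩
  · intro W hW
    exact ⟨{W}, by simpa using Or.inr hW, by simp⟩

theorem gen_eq_pair {T : Set (Submodule k V)} (h : T ⊆ {⊥, ⊤}) : gen T = {⊥, ⊤} := by
  apply Set.Subset.antisymm (gen_subset isMultiFlag_pair h)
  intro W hW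
  rcases hW with rfl | rfl
  · exact (isMultiFlag_gen T).1
  · exact (isMultiFlag_gen T).2.1

end gen

/-- The underlying set of the crown poset `a, b < c, d`. -/
inductive Crown : Type
  | a | b | c | d
  deriving DecidableEq

namespace Crown

instance : Finite Crown :=
  Finite.of_injective (β := Fin 4)
    (fun x => match x with | a => 0 | b => 1 | c => 2 | d => 3)
    (by intro x y; cases x <;> cases y <;> simp)

/-- low elements -/
def low : Crown → Prop
  | a => True | b => True | c => False | d => False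

instance : PartialOrder Crown where
  le x y := x = y ∨ (low x ∧ ¬ low y)
  le_refl x := Or.inl rfl
  le_trans x y z h1 h2 := by
    rcases h1 with rfl | h1
    · exact h2
    · rcases h2 with rfl | h2
      · exact Or.inr h1
      · exact absurd h2.1 h1.2
  le_antisymm x y h1 h2 := by
    rcases h1 with rfl | h1
    · rfl
    · rcases h2 with rfl | h2
      · rfl
      · exact absurd h2.1 h1.2

theorem le_def {x y : Crown} : x ≤ y ↔ x = y ∨ (low x ∧ ¬ low y) := Iff.rfl

theorem hac : a ≤ c := Or.inr ⟨trivial, id⟩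
theorem had : a ≤ d := Or.inr ⟨trivial, id⟩
theorem hbc : b ≤ c := Or.inr ⟨trivial, id⟩
theorem hbd : b ≤ d := Or.inr ⟨trivial, id⟩

instance : Nonempty Crown := ⟨a⟩

theorem zz (x : Crown) : Zigzag a x := by
  cases x
  · exact Relation.ReflTransGen.refl
  · exact (Zigzag.of_hom (homOfLE hac)).trans (Zigzag.of_inv (homOfLE hbc))
  · exact Zigzag.of_hom (homOfLE hac)
  · exact Zigzag.of_hom (homOfLE had)

instance : IsConnected Crown :=
  zigzag_isConnected fun x y => (zz x).symm.trans (zz y)

end Crown

section example_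

variable (k : Type u) [Field k]

/-- the diagonal map `(x, y) ↦ (x, t y)` -/
def dg (t : k) : (k × k) →ₗ[k] (k × k) :=
  LinearMap.prodMap LinearMap.id (t • LinearMap.id)

@[simp] theorem dg_apply (t : k) (v : k × k) : dg k t v = (v.1, t * v.2) := rfl

/-- the linear maps of the example -/
def tr (t : k) : Crown → Crown → ((k × k) →ₗ[k] (k × k))
  | .b, .d => dg k t
  | _, _ => LinearMap.id

/-- the example: constant `k × k` on the crown, all maps the identity but one. -/
def ex (t : k) : Crown ⥤ ModuleCat.{u} k where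
  obj _ := ModuleCat.of k (k × k)
  map {x y} _ := ModuleCat.ofHom (tr k t x y)
  map_id x := by cases x <;> rfl
  map_comp {x y z} f g := by
    have h1 := leOfHom f
    have h2 := leOfHom g
    rw [Crown.le_def] at h1 h2
    rcases h1 with rfl | h1
    · cases x <;> cases z <;> rfl
    · rcases h2 with rfl | h2
      · cases x <;> cases y <;> rfl
      · exact absurd h2.1 h1.2

theorem phi_ex (t : k) {x y : Crown} (h : x ≤ y) : phi (ex k t) h = tr k t x y := rfl

theorem tr_bij {t : k} (ht : t ≠ 0) (x y : Crown) : Function.Bijective (tr k t x y) := by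
  have hid : Function.Bijective (LinearMap.id : (k × k) →ₗ[k] (k × k)) := Function.bijective_id
  have hdg : Function.Bijective (dg k t) := by
    constructor
    · intro v w h
      simp only [dg_apply, Prod.mk.injEq] at h
      exact Prod.ext h.1 (mul_left_cancel₀ ht h.2)
    · intro v
      refine ⟨(v.1, t⁻¹ * v.2), ?_⟩
      simp only [dg_apply]
      rw [← mul_assoc, mul_inv_cancel₀ ht, one_mul]
  cases x <;> cases y <;> first | exact hid | exact hdg

theorem loc_ex {t : k} (ht : t ≠ 0) (n : ℕ) (x : Crown) : loc (ex k t) n x = {⊥, ⊤} := by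
  induction n generalizing x with
  | zero =>
    apply gen_eq_pair
    rintro W (⟨y, h, rfl⟩ | ⟨z, h, rfl⟩)
    · left
      rw [phi_ex]
      exact LinearMap.ker_eq_bot.2 (tr_bij k ht x y).1
    · right
      rw [phi_ex]
      exact LinearMap.range_eq_top.2 (tr_bij k ht z x).2
  | succ n ih =>
    apply gen_eq_pair
    rintro W (⟨y, h, U, hU, rfl⟩ | ⟨z, h, U, hU, rfl⟩)
    · rw [ih] at hU
      rcases hU with rfl | rfl
      · left
        rw [phi_ex]
        exact LinearMap.ker_eq_bot.2 (tr_bij k ht x y).1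
      · right
        exact Submodule.comap_top _
    · rw [ih] at hU
      rcases hU with rfl | rfl
      · left
        exact Submodule.map_bot _
      · right
        rw [phi_ex]
        exact (Submodule.map_top _).trans (LinearMap.range_eq_top.2 (tr_bij k ht z x).2)

/-- the line spanned by `(1, s)` -/
def ln (s : k) : Submodule k (k × k) := Submodule.span k {((1 : k), s)}

theorem mem_ln {s : k} {v : k × k} : v ∈ ln k s ↔ v.2 = s * v.1 := by
  rw [ln, Submodule.mem_span_singleton]
  constructor
  · rintro ⟨r, rfl⟩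
    simp [mul_comm]
  · intro h
    exact ⟨v.1, Prod.ext (by simp) (by simp [h, mul_comm])⟩

theorem ln_inj {s s' : k} (h : ln k s = ln k s') : s = s' := by
  have h1 : ((1 : k), s) ∈ ln k s' := by
    rw [← h, mem_ln]
    simp
  rw [mem_ln] at h1
  simpa using h1

theorem map_dg_ln (t s : k) : (ln k s).map (dg k t) = ln k (t * s) := by
  rw [ln, ln, Submodule.map_span, Set.image_singleton]
  rfl

/-- the relative datum: the line `L = span (1,1)` at `a`, trivial elsewhere -/
def rel (t : k) (x : Crown) : Set (Submodule k ((ex k t).obj x)) :=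
  match x with
  | .a => (({⊥, ⊤, ln k 1} : Set (Submodule k (k × k))))
  | _ => (({⊥, ⊤} : Set (Submodule k (k × k))))

theorem rel_ok (t : k) (x : Crown) : IsMultiFlag (rel k t x) ∧ (rel k t x).Finite := by
  cases x
  · exact ⟨isMultiFlag_triple (V := k × k) (ln k 1),
      (Set.toFinite ({⊥, ⊤, ln k 1} : Set (Submodule k (k × k))))⟩
  all_goals
    exact ⟨isMultiFlag_pair (V := k × k), (Set.toFinite ({⊥, ⊤} : Set (Submodule k (k × k))))⟩

theorem relLoc_finite (t : k) (n : ℕ) (x : Crown) :
    (relLoc (ex k t) (rel k t) n x).Finite := by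
  induction n generalizing x with
  | zero =>
    apply gen_finite
    refine Set.Finite.union ?_ (rel_ok k t x).2
    apply gen_finite
    refine Set.Finite.union ?_ ?_
    · refine (Set.finite_range (fun y : Crown => LinearMap.ker (tr k t x y))).subset ?_
      rintro W ⟨y, h, rfl⟩
      exact ⟨y, rfl⟩
    · refine (Set.finite_range (fun z : Crown => LinearMap.range (tr k t z x))).subset ?_
      rintro W ⟨y, h, rfl⟩
      exact ⟨y, rfl⟩
  | succ n ih =>
    apply gen_finite
    refine Set.Finite.union ?_ ?_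
    · have : (⋃ y : Crown, (fun U : Submodule k (k × k) => U.comap (tr k t x y)) ''
          (relLoc (ex k t) (rel k t) n y)).Finite :=
        Set.finite_iUnion fun y => (ih y).image _
      refine this.subset ?_
      rintro W ⟨y, h, U, hU, rfl⟩
      exact Set.mem_iUnion.2 ⟨y, U, hU, rfl⟩
    · have : (⋃ y : Crown, (fun U : Submodule k (k × k) => U.map (tr k t y x)) ''
          (relLoc (ex k t) (rel k t) n y)).Finite :=
        Set.finite_iUnion fun y => (ih y).image _
      refine this.subset ?_
      rintro W ⟨y, h, U, hU, rfl⟩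
      exact Set.mem_iUnion.2 ⟨y, U, hU, rfl⟩

theorem mem_step_map (t : k) (n : ℕ) {x y : Crown} (h : x ≤ y) {U : Submodule k (k × k)}
    (hU : U ∈ relLoc (ex k t) (rel k t) n x) :
    U.map (tr k t x y) ∈ relLoc (ex k t) (rel k t) (n + 1) y := by
  apply subset_gen
  right
  exact ⟨x, h, U, hU, rfl⟩

theorem mem_step_comap (t : k) (n : ℕ) {x y : Crown} (h : x ≤ y) {U : Submodule k (k × k)}
    (hU : U ∈ relLoc (ex k t) (rel k t) n y) :
    U.comap (tr k t x y) ∈ relLoc (ex k t) (rel k t) (n + 1) x := by
  apply subset_gen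
  left
  exact ⟨y, h, U, hU, rfl⟩

theorem ln_mem (t : k) (m : ℕ) : ∃ n : ℕ,
    ln k (t ^ m) ∈ relLoc (ex k t) (rel k t) n Crown.a := by
  induction m with
  | zero =>
    refine ⟨0, subset_gen _ (Or.inr ?_)⟩
    right; right
    rw [pow_zero]
    rfl
  | succ m ih =>
    obtain ⟨n, hn⟩ := ih
    refine ⟨n + 1 + 1 + 1 + 1, ?_⟩
    have h1 := mem_step_map k t n Crown.hac hn
    have h2 := mem_step_comap k t (n + 1) Crown.hbc h1
    have h3 := mem_step_map k t (n + 1 + 1) Crown.hbd h2
    have h4 := mem_step_comap k t (n + 1 + 1 + 1) Crown.had h3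
    have e1 : (ln k (t ^ m)).map (tr k t Crown.a Crown.c) = ln k (t ^ m) := Submodule.map_id _
    have e2 : (ln k (t ^ m)).comap (tr k t Crown.b Crown.c) = ln k (t ^ m) :=
      Submodule.comap_id _
    have e3 : (ln k (t ^ m)).map (tr k t Crown.b Crown.d) = ln k (t ^ (m + 1)) := by
      rw [pow_succ']
      exact map_dg_ln k t (t ^ m)
    have e4 : (ln k (t ^ (m + 1))).comap (tr k t Crown.a Crown.d) = ln k (t ^ (m + 1)) :=
      Submodule.comap_id _
    rw [e1, e2, e3, e4] at h4
    exact h4

end example_

/-- the counterexample over a field with an element of infinite multiplicative order -/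
theorem key (k : Type u) [Field k] (ht : ∃ t : k, t ≠ 0 ∧ ∀ n : ℕ, 1 ≤ n → t ^ n ≠ 1) :
    ∃ (C : Type) (_ : PartialOrder C) (_ : Finite C) (_ : IsConnected C)
      (M : C ⥤ ModuleCat.{u} k), (∀ x, FiniteDimensional k (M.obj x)) ∧
        Stable M ∧ ¬ StronglyStable M := by
  obtain ⟨t, ht0, ht⟩ := ht
  refine ⟨Crown, inferInstance, inferInstance, inferInstance, ex k t, ?_, ?_, ?_⟩
  · intro x
    exact (inferInstance : FiniteDimensional k (k × k))
  · intro x
    exact ⟨0, fun n _ => (loc_ex k ht0 n x).trans (loc_ex k ht0 (n + 1) x).symm⟩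
  · intro hs
    obtain ⟨N, hN⟩ := hs (rel k t) (rel_ok k t)
    have hfin := relLoc_finite k t N Crown.a
    rw [← hN Crown.a] at hfin
    have hinj : Function.Injective (fun m : ℕ => ln k (t ^ m)) := by
      intro m m' h
      have h' := ln_inj k h
      have hwlog : ∀ i j : ℕ, i < j → t ^ i ≠ t ^ j := by
        intro i j hij heq
        apply ht (j - i) (by omega)
        have : t ^ i * t ^ (j - i) = t ^ i * 1 := by
          rw [← pow_add, mul_one, heq]
          congr 1
          omega
        exact mul_left_cancel₀ (pow_ne_zero i ht0) this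
      rcases lt_trichotomy m m' with h1 | h1 | h1
      · exact absurd h' (hwlog _ _ h1)
      · exact h1
      · exact absurd h'.symm (hwlog _ _ h1)
    have hinf : (Set.range (fun m : ℕ => ln k (t ^ m))).Infinite :=
      Set.infinite_range_of_injective hinj
    apply hinf
    refine hfin.subset ?_
    rintro W ⟨m, rfl⟩
    obtain ⟨n, hn⟩ := ln_mem k t m
    exact Set.mem_iUnion.2 ⟨n, hn⟩

/-- **Disproof of Q1.**  Over every field `k` with a nonzero element `t` that is not a root of
unity, there are a finite connected poset `C` and a `C`-module `M` (of finite-dimensional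
spaces) whose local structure is stable but not strongly stable.  In particular this holds
over `ℚ`. -/
theorem result :
    (∀ (k : Type u) [Field k], (∃ t : k, t ≠ 0 ∧ ∀ n : ℕ, 1 ≤ n → t ^ n ≠ 1) →
      ∃ (C : Type) (_ : PartialOrder C) (_ : Finite C) (_ : IsConnected C)
        (M : C ⥤ ModuleCat.{u} k), (∀ x, FiniteDimensional k (M.obj x)) ∧
          Stable M ∧ ¬ StronglyStable M) ∧
    (∃ (C : Type) (_ : PartialOrder C) (_ : Finite C) (_ : IsConnected C)
        (M : C ⥤ ModuleCat.{0} ℚ), (∀ x, FiniteDimensional ℚ (M.obj x)) ∧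
          Stable M ∧ ¬ StronglyStable M) := by
  refine ⟨fun k _ h => key k h, key ℚ ⟨2, by norm_num, ?_⟩⟩
  intro n hn h
  have h2 : (1 : ℚ) < 2 ^ n := one_lt_pow₀ (by norm_num) (by omega)
  rw [h] at h2
  exact lt_irrefl _ h2

end Pool.Agent.Results.MP_0548d2_gt.StableNotStrong
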